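import Mathlib
import Pool.Agent.MP_952e48_gt.NotIC1

set_option autoImplicit false

/-!
# Q1: a Ricci flow invariant curvature cone with the pinching property that is not in `C_IC1`
-/

namespace Pool.Agent.Results.MP_952e48_gt.BeyondIC1

open Pool.Agent.RicciCone

/-- For every `n ≥ 4` there is a curvature cone `C` that is Ricci flow invariant, has the pinching
property, and is not contained in `C_IC1`. -/
theorem result : ∀ n : ℕ, 4 ≤ n → ∃ C : Set (Curv n), IsPinchingCone C ∧ ¬ C ⊆ coneIC1 n :=
  fun _ hn => ⟨_, ellCone_pinching hn, ellCone_not_subset hn⟩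

end Pool.Agent.Results.MP_952e48_gt.BeyondIC1
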