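import Mathlib
import Pool.Agent.MP_952e48_gt.Frob

set_option autoImplicit false

/-!
# Q2: maximal Ricci flow invariant curvature cones with the pinching property exist
-/

namespace Pool.Agent.Results.MP_952e48_gt.MaximalCone

open Pool.Agent.RicciCone

/-- For every `n ≥ 4` there is a curvature cone which is maximal, with respect to inclusion, among
the curvature cones that are Ricci flow invariant and have the pinching property. -/
theorem result : ∀ n : ℕ, 4 ≤ n → ∃ C : Set (Curv n), IsPinchingCone C ∧
    ∀ C' : Set (Curv n), IsPinchingCone C' → C ⊆ C' → C' = C := by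
  intro n hn
  obtain ⟨C₀, h₀⟩ := exists_pinchingCone hn
  obtain ⟨C, _, hC, hmax⟩ := exists_maximal h₀
  exact ⟨C, hC, hmax⟩

end Pool.Agent.Results.MP_952e48_gt.MaximalCone
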